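import Pool.Agent.N71.RP.Stm

set_option autoImplicit false

namespace Pool.Agent.N26.RP

open Pool.Agent.N71.RP Finset

lemma chr_abs {f : ℕ → ℝ} {Q : ℝ} (h : Chr f Q) (n : ℕ) : |f n| ≤ 1 := by
  rcases h.val n with h1 | h1 | h1 <;> rw [h1] <;> norm_num

lemma cv_abs {f h : ℕ → ℝ} (hf : ∀ n, |f n| ≤ 1) (hh : ∀ n, |h n| ≤ 1) (n : ℕ) :
    |cv f h n| ≤ (n.divisors.card : ℝ) := by
  unfold cv
  refine (Finset.abs_sum_le_sum_abs _ _).trans ?_
  have : ∀ m ∈ n.divisors, |f m * h (n / m)| ≤ 1 := by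
    intro m _
    rw [abs_mul]
    calc |f m| * |h (n / m)| ≤ 1 * 1 := mul_le_mul (hf _) (hh _) (abs_nonneg _) zero_le_one
      _ = 1 := one_mul 1
  refine (Finset.sum_le_sum this).trans ?_
  simp

lemma div_sum (N : ℕ) (β : ℝ) :
    ∑ n ∈ Finset.Icc 1 N, (n.divisors.card : ℝ) * (n : ℝ) ^ (-β) ≤
      (∑ k ∈ Finset.Icc 1 N, (k : ℝ) ^ (-β)) ^ 2 := by
  have h1 : ∀ n ∈ Finset.Icc 1 N, (n.divisors.card : ℝ) * (n : ℝ) ^ (-β) =
      ∑ p ∈ n.divisorsAntidiagonal, (p.1 : ℝ) ^ (-β) * (p.2 : ℝ) ^ (-β) := by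
    intro n hn
    have : ∀ p ∈ n.divisorsAntidiagonal, (p.1 : ℝ) ^ (-β) * (p.2 : ℝ) ^ (-β) = (n : ℝ) ^ (-β) := by
      intro p hp
      rw [Nat.mem_divisorsAntidiagonal] at hp
      rw [← Real.mul_rpow (Nat.cast_nonneg _) (Nat.cast_nonneg _), ← Nat.cast_mul, hp.1]
    rw [Finset.sum_congr rfl this, Finset.sum_const, nsmul_eq_mul]
    congr 2
    rw [← Nat.map_div_right_divisors, Finset.card_map]
  rw [Finset.sum_congr rfl h1, sq, Finset.sum_mul_sum, ← Finset.sum_product']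
  set P := (Finset.Icc 1 N ×ˢ Finset.Icc 1 N).filter (fun p : ℕ × ℕ => p.1 * p.2 ≤ N) with hP
  have h2 : ∀ n ∈ Finset.Icc 1 N, ∑ p ∈ n.divisorsAntidiagonal, (p.1 : ℝ) ^ (-β) * (p.2 : ℝ) ^ (-β) =
      ∑ p ∈ P.filter (fun p => p.1 * p.2 = n), (p.1 : ℝ) ^ (-β) * (p.2 : ℝ) ^ (-β) := by
    intro n hn
    rw [Finset.mem_Icc] at hn
    refine Finset.sum_congr ?_ fun _ _ => rfl
    ext p
    rw [Nat.mem_divisorsAntidiagonal, Finset.mem_filter, hP, Finset.mem_filter, Finset.mem_product,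
      Finset.mem_Icc, Finset.mem_Icc]
    constructor
    · rintro ⟨h3, h4⟩
      have h5 : 1 ≤ p.1 := by
        rcases Nat.eq_zero_or_pos p.1 with h | h
        · rw [h, zero_mul] at h3; omega
        · exact h
      have h6 : 1 ≤ p.2 := by
        rcases Nat.eq_zero_or_pos p.2 with h | h
        · rw [h, mul_zero] at h3; omega
        · exact h
      have h7 : p.1 ≤ n := by rw [← h3]; exact Nat.le_mul_of_pos_right _ h6
      have h8 : p.2 ≤ n := by rw [← h3]; exact Nat.le_mul_of_pos_left _ h5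
      exact ⟨⟨⟨⟨h5, h7.trans hn.2⟩, ⟨h6, h8.trans hn.2⟩⟩, h3 ▸ hn.2⟩, h3⟩
    · rintro ⟨_, h4⟩
      exact ⟨h4, by omega⟩
  rw [Finset.sum_congr rfl h2]
  rw [Finset.sum_fiberwise_of_maps_to (s := P) (t := Finset.Icc 1 N) (g := fun p : ℕ × ℕ => p.1 * p.2)]
  · refine Finset.sum_le_sum_of_subset_of_nonneg (Finset.filter_subset _ _) ?_
    intro p _ _
    positivity
  · intro p hp
    rw [hP, Finset.mem_filter, Finset.mem_product, Finset.mem_Icc, Finset.mem_Icc] at hp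
    rw [Finset.mem_Icc]
    exact ⟨Nat.one_le_iff_ne_zero.mpr (Nat.mul_ne_zero (by omega) (by omega)), hp.2⟩

lemma harm (N : ℕ) (_ : 1 ≤ N) : ∑ k ∈ Finset.Icc 1 N, (k : ℝ)⁻¹ ≤ 1 + Real.log N := by
  have := harmonic_le_one_add_log N
  rw [harmonic_eq_sum_Icc] at this
  push_cast at this
  exact this

/-- sums of `k^(-β)` up to `X^b` -/
lemma pow_sum {X b N : ℕ} {β : ℝ} (hX : 3 ≤ X) (hβ : 1 - 1 / Real.log X ≤ β) (hβ1 : β < 1)
    (hN1 : 1 ≤ N) (hN : N ≤ X ^ b) :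
    ∑ k ∈ Finset.Icc 1 N, (k : ℝ) ^ (-β) ≤ Real.exp b * (1 + b * X) := by
  have hX0 : (0 : ℝ) < X := by positivity
  have hXr : (3 : ℝ) ≤ X := by exact_mod_cast hX
  have hL : 0 < Real.log X := Real.log_pos (by linarith)
  have hLX : Real.log X ≤ X := by
    have := Real.log_le_sub_one_of_pos hX0
    linarith
  have hk : ∀ k ∈ Finset.Icc 1 N, (k : ℝ) ^ (-β) ≤ Real.exp b * (k : ℝ)⁻¹ := by
    intro k hk
    rw [Finset.mem_Icc] at hk
    have hk0 : (0 : ℝ) < k := by exact_mod_cast hk.1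
    have hkX : (k : ℝ) ≤ (X : ℝ) ^ b := by exact_mod_cast hk.2.trans hN
    have h1 : (k : ℝ) ^ (-β) = (k : ℝ) ^ (1 - β) * (k : ℝ)⁻¹ := by
      rw [← Real.rpow_neg_one, ← Real.rpow_add hk0]
      congr 1; ring
    rw [h1]
    apply mul_le_mul_of_nonneg_right _ (by positivity)
    have h2 : (k : ℝ) ^ (1 - β) ≤ ((X : ℝ) ^ b) ^ (1 - β) :=
      Real.rpow_le_rpow hk0.le hkX (by linarith)
    refine h2.trans ?_
    rw [← Real.rpow_natCast, ← Real.rpow_mul hX0.le, Real.rpow_def_of_pos hX0, Real.exp_le_exp]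
    have h3 : (1 - β) * Real.log X ≤ 1 := by
      have : 1 - β ≤ 1 / Real.log X := by linarith
      calc (1 - β) * Real.log X ≤ 1 / Real.log X * Real.log X :=
            mul_le_mul_of_nonneg_right this hL.le
        _ = 1 := by field_simp
    have h4 : (0 : ℝ) ≤ b := Nat.cast_nonneg b
    nlinarith
  refine (Finset.sum_le_sum hk).trans ?_
  rw [← Finset.mul_sum]
  apply mul_le_mul_of_nonneg_left _ (Real.exp_pos _).le
  refine (harm N hN1).trans ?_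
  have h5 : Real.log N ≤ Real.log ((X : ℝ) ^ b) := by
    apply Real.log_le_log (by exact_mod_cast hN1)
    exact_mod_cast hN
  rw [Real.log_pow] at h5
  have h6 : (b : ℝ) * Real.log X ≤ b * X := mul_le_mul_of_nonneg_left hLX (Nat.cast_nonneg b)
  linarith

lemma cv_sum {f h : ℕ → ℝ} (hf : ∀ n, |f n| ≤ 1) (hh : ∀ n, |h n| ≤ 1) {X b N : ℕ} {β : ℝ}
    (hX : 3 ≤ X) (hβ : 1 - 1 / Real.log X ≤ β) (hβ1 : β < 1) (hN1 : 1 ≤ N) (hN : N ≤ X ^ b) :
    ∑ n ∈ Finset.Icc 1 N, |cv f h n| * (n : ℝ) ^ (-β) ≤ (Real.exp b * (1 + b * X)) ^ 2 := by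
  have h1 : ∑ n ∈ Finset.Icc 1 N, |cv f h n| * (n : ℝ) ^ (-β) ≤
      ∑ n ∈ Finset.Icc 1 N, (n.divisors.card : ℝ) * (n : ℝ) ^ (-β) := by
    refine Finset.sum_le_sum fun n _ => ?_
    apply mul_le_mul_of_nonneg_right (cv_abs hf hh n) (by positivity)
  refine h1.trans ((div_sum N β).trans ?_)
  have h2 := pow_sum hX hβ hβ1 hN1 hN
  have h3 : 0 ≤ ∑ k ∈ Finset.Icc 1 N, (k : ℝ) ^ (-β) :=
    Finset.sum_nonneg fun k _ => by positivity
  exact pow_le_pow_left₀ h3 h2 2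

/-- the size of `la f₁` when `gy f₁` vanishes -/
lemma la_small {f : ℕ → ℝ} (hf : ∀ n, |f n| ≤ 1) {X : ℕ} {β : ℝ} (hX : 3 ≤ X)
    (hβ : 1 - 1 / Real.log X ≤ β) (hβ1 : β < 1) (h0 : gy f (X ^ 16) β = 0) :
    |la f (X ^ 16)| ≤ (1 - β) * (16 * X * (Real.exp 16 * (1 + 16 * X))) := by
  have hX0 : (0 : ℝ) < X := by positivity
  have hXr : (3 : ℝ) ≤ X := by exact_mod_cast hX
  have hLX : Real.log X ≤ X := by
    have := Real.log_le_sub_one_of_pos hX0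
    linarith
  have h1 : la f (X ^ 16) = ∑ m ∈ Finset.Icc 1 (X ^ 16), f m * ((m : ℝ)⁻¹ - (m : ℝ) ^ (-β)) := by
    have : la f (X ^ 16) = la f (X ^ 16) - gy f (X ^ 16) β := by rw [h0, sub_zero]
    rw [this, la, gy, ← Finset.sum_sub_distrib]
    refine Finset.sum_congr rfl fun m _ => ?_
    rw [mul_sub, div_eq_mul_inv]
  rw [h1]
  refine (Finset.abs_sum_le_sum_abs _ _).trans ?_
  have h2 : ∀ m ∈ Finset.Icc 1 (X ^ 16), |f m * ((m : ℝ)⁻¹ - (m : ℝ) ^ (-β))| ≤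
      (1 - β) * (16 * X) * (m : ℝ) ^ (-β) := by
    intro m hm
    rw [Finset.mem_Icc] at hm
    have hm0 : (0 : ℝ) < m := by exact_mod_cast hm.1
    have hm1 : (1 : ℝ) ≤ m := by exact_mod_cast hm.1
    have hmX : (m : ℝ) ≤ (X : ℝ) ^ 16 := by exact_mod_cast hm.2
    have hlog : Real.log m ≤ 16 * X := by
      have := Real.log_le_log hm0 hmX
      rw [Real.log_pow] at this
      push_cast at this
      linarith
    have hlog0 : 0 ≤ Real.log m := Real.log_nonneg hm1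
    have h3 : (m : ℝ)⁻¹ = (m : ℝ) ^ (-β) * (m : ℝ) ^ (-(1 - β)) := by
      rw [← Real.rpow_neg_one, ← Real.rpow_add hm0]
      congr 1; ring
    have h4 : 1 - (1 - β) * Real.log m ≤ (m : ℝ) ^ (-(1 - β)) := by
      rw [Real.rpow_def_of_pos hm0]
      have := Real.add_one_le_exp (Real.log m * -(1 - β))
      linarith
    have h5 : (m : ℝ) ^ (-(1 - β)) ≤ 1 := Real.rpow_le_one_of_one_le_of_nonpos hm1 (by linarith)
    rw [abs_mul, h3]
    have h6 : (m : ℝ) ^ (-β) * (m : ℝ) ^ (-(1 - β)) - (m : ℝ) ^ (-β) =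
        -((m : ℝ) ^ (-β) * (1 - (m : ℝ) ^ (-(1 - β)))) := by ring
    rw [h6, abs_neg, abs_of_nonneg (mul_nonneg (by positivity : (0 : ℝ) ≤ (m : ℝ) ^ (-β)) (by linarith : (0 : ℝ) ≤ 1 - (m : ℝ) ^ (-(1 - β))))]
    have h7 : (1 - (m : ℝ) ^ (-(1 - β))) ≤ (1 - β) * (16 * X) := by
      have : (1 - β) * Real.log m ≤ (1 - β) * (16 * X) :=
        mul_le_mul_of_nonneg_left hlog (by linarith)
      linarith
    have h8 : (0 : ℝ) ≤ (m : ℝ) ^ (-β) := by positivity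
    calc |f m| * ((m : ℝ) ^ (-β) * (1 - (m : ℝ) ^ (-(1 - β)))) ≤
        1 * ((m : ℝ) ^ (-β) * ((1 - β) * (16 * X))) := by
          apply mul_le_mul (hf m) _ (mul_nonneg h8 (by linarith)) zero_le_one
          exact mul_le_mul_of_nonneg_left h7 h8
      _ = _ := by ring
  refine (Finset.sum_le_sum h2).trans ?_
  rw [← Finset.mul_sum]
  have h9 := pow_sum (b := 16) hX hβ hβ1 (Nat.one_le_pow 16 X (by omega)) (le_refl _)
  push_cast at h9
  have h10 : 0 ≤ (1 - β) * (16 * (X : ℝ)) := mul_nonneg (by linarith) (by positivity)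
  calc (1 - β) * (16 * (X : ℝ)) * ∑ i ∈ Finset.Icc 1 (X ^ 16), (i : ℝ) ^ (-β) ≤
      (1 - β) * (16 * (X : ℝ)) * (Real.exp 16 * (1 + 16 * X)) := mul_le_mul_of_nonneg_left h9 h10
    _ = _ := by ring

lemma err_three {X M W D A B C : ℝ} (hX1 : 1 ≤ X) (hC : 0 < C) (h4 : |M| ≤ 272 * A * X ^ 2)
    (hW0 : 0 ≤ W) (hW : W ≤ B) (hD : |D| ≤ C / X ^ 6) : |M * W * D| ≤ C * (272 * A * B) / X := by
  have hX0 : 0 < X := by linarith
  have hB : 0 ≤ B := hW0.trans hW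
  have hA : 0 ≤ 272 * A * X ^ 2 := (abs_nonneg M).trans h4
  have hA0 : 0 ≤ A := by
    by_contra h
    push Not at h
    nlinarith [pow_pos hX0 2]
  rw [abs_mul, abs_mul, abs_of_nonneg hW0]
  have h5 : |M| * W ≤ 272 * A * X ^ 2 * B := mul_le_mul h4 hW hW0 hA
  have h6 : |M| * W * |D| ≤ 272 * A * X ^ 2 * B * (C / X ^ 6) :=
    mul_le_mul h5 hD (abs_nonneg D) (mul_nonneg hA hB)
  refine h6.trans ?_
  have h7 : 272 * A * X ^ 2 * B * (C / X ^ 6) = C * (272 * A * B) / X ^ 4 := by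
    field_simp
  rw [h7]
  apply div_le_div_of_nonneg_left (by positivity) hX0
  calc X = X ^ 1 := (pow_one X).symm
    _ ≤ X ^ 4 := pow_le_pow_right₀ hX1 (by norm_num)

theorem t_FOUR (hTWO : E_TWO) (hCONV : E_CONV) (hPSI : E_PSI) : E_FOUR := by
  intro a ha
  obtain ⟨X₁, hX₁, hT⟩ := hTWO a (by omega)
  obtain ⟨C, hC, hP⟩ := hPSI
  set K : ℝ := 289 * Real.exp 16 ^ 2 + C * (Real.exp a * (1 + a)) ^ 2 +
    C * (272 * Real.exp 16 * Real.exp a) with hK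
  have hK0 : 0 < K := by positivity
  obtain ⟨X₂, hX₂⟩ := exists_nat_gt (2 * K)
  obtain ⟨X₃, hX₃⟩ := exists_nat_gt (Real.exp 8)
  refine ⟨max X₁ (max X₂ X₃), le_max_of_le_left hX₁, fun X hX f₁ f₂ h1 h2 h3 β hβ hβ1 h0 => ?_⟩
  have hXX₁ : X₁ ≤ X := le_trans (le_max_left _ _) hX
  have hXX₂ : X₂ ≤ X := le_trans ((le_max_left _ _).trans (le_max_right _ _)) hX
  have hXX₃ : X₃ ≤ X := le_trans ((le_max_right _ _).trans (le_max_right _ _)) hX
  have hX3 : 3 ≤ X := hX₁.trans hXX₁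
  have hXr : (3 : ℝ) ≤ X := by exact_mod_cast hX3
  have hX0 : (0 : ℝ) < X := by linarith
  have hX1 : (1 : ℝ) ≤ X := by linarith
  have hL8 : 8 ≤ Real.log X := by
    rw [Real.le_log_iff_exp_le hX0]
    have : (X₃ : ℝ) ≤ X := by exact_mod_cast hXX₃
    linarith
  have hβ78 : 7 / 8 ≤ β := by
    have : 1 / Real.log X ≤ 1 / 8 := one_div_le_one_div_of_le (by norm_num) hL8
    linarith
  obtain ⟨z, hz, hz2⟩ := hT X hXX₁ f₁ h1 β hβ hβ1
  obtain ⟨hF, hLa⟩ := hP X (by omega) f₂ (fun n => f₁ n * f₂ n) h2 h3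
  set f₃ : ℕ → ℝ := fun n => f₁ n * f₂ n with hf₃
  set M : ℝ := la f₁ (X ^ 16) / (1 - β) with hM
  have hxy : (X : ℝ) ^ a / ((X ^ 16 : ℕ) : ℝ) = (X : ℝ) ^ (a - 16) := by
    rw [Nat.cast_pow, div_eq_iff (by positivity), ← pow_add]
    congr 1; omega
  have hcv := hCONV (r2 f₁) (cv f₂ f₃) β M 0 (1 / (X : ℝ) ^ 8) (C / (X : ℝ) ^ 4) ((X : ℝ) ^ a)
    (X ^ 16) (Nat.one_le_pow 16 X (by omega))
    (by
      rw [Nat.cast_pow]
      exact pow_le_pow_right₀ hX1 (by omega))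
    (by linarith) hβ1.le
    (by
      intro t ht1 ht2
      rw [hxy] at ht1
      have h32 : (X : ℝ) ^ 32 ≤ t := (pow_le_pow_right₀ hX1 (by omega)).trans ht1
      have := hz2 t h32 ht2
      rw [h0, mul_zero] at this
      exact this)
    (fun w hw => hF β hβ78 hβ1.le w hw)
  have hfl : ⌊(X : ℝ) ^ a⌋₊ = X ^ a := by
    rw [← Nat.cast_pow, Nat.floor_natCast]
  have hfl2 : ⌊(X : ℝ) ^ a / ((X ^ 16 : ℕ) : ℝ)⌋₊ = X ^ (a - 16) := by
    rw [hxy, ← Nat.cast_pow, Nat.floor_natCast]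
  rw [hfl, hfl2, zero_mul, sub_zero] at hcv
  have hS1 := cv_sum (chr_abs h2) (chr_abs h3) (b := 16) hX3 hβ hβ1
    (Nat.one_le_pow 16 X (by omega)) (le_refl (X ^ 16))
  have hS2 := cv_sum (f := f₁) (h := fun _ => 1) (chr_abs h1) (fun _ => by simp) (b := a) hX3 hβ hβ1
    (Nat.one_le_pow (a - 16) X (by omega)) (Nat.pow_le_pow_right (by omega) (by omega : a - 16 ≤ a))
  push_cast at hS1
  have hlaS := la_small (chr_abs h1) hX3 hβ hβ1 h0
  -- the error terms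
  have hp : ∀ k : ℕ, 1 ≤ k → (X : ℝ) ≤ (X : ℝ) ^ k := fun k hk => by
    calc (X : ℝ) = (X : ℝ) ^ 1 := (pow_one _).symm
      _ ≤ (X : ℝ) ^ k := pow_le_pow_right₀ hX1 hk
  have e1 : 1 / (X : ℝ) ^ 8 * ∑ m ∈ Finset.Icc 1 (X ^ 16), |cv f₂ f₃ m| * (m : ℝ) ^ (-β) ≤
      289 * Real.exp 16 ^ 2 / X := by
    have : (Real.exp 16 * (1 + 16 * (X : ℝ))) ^ 2 ≤ Real.exp 16 ^ 2 * (289 * X ^ 2) := by
      rw [mul_pow]
      apply mul_le_mul_of_nonneg_left _ (by positivity)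
      nlinarith
    calc 1 / (X : ℝ) ^ 8 * ∑ m ∈ Finset.Icc 1 (X ^ 16), |cv f₂ f₃ m| * (m : ℝ) ^ (-β) ≤
        1 / (X : ℝ) ^ 8 * (Real.exp 16 ^ 2 * (289 * X ^ 2)) :=
          mul_le_mul_of_nonneg_left (hS1.trans this) (by positivity)
      _ = 289 * Real.exp 16 ^ 2 / X ^ 6 := by field_simp
      _ ≤ _ := div_le_div_of_nonneg_left (by positivity) hX0 (hp 6 (by norm_num))
  have e2 : C / (X : ℝ) ^ 4 * ∑ k ∈ Finset.Icc 1 (X ^ (a - 16)), |r2 f₁ k| * (k : ℝ) ^ (-β) ≤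
      C * (Real.exp a * (1 + a)) ^ 2 / X := by
    have : (Real.exp a * (1 + a * (X : ℝ))) ^ 2 ≤ (Real.exp a * (1 + a)) ^ 2 * X ^ 2 := by
      rw [mul_pow, mul_pow, mul_assoc]
      apply mul_le_mul_of_nonneg_left _ (by positivity)
      rw [← mul_pow]
      apply pow_le_pow_left₀ (by positivity)
      have : (0 : ℝ) ≤ a := Nat.cast_nonneg a
      nlinarith
    calc C / (X : ℝ) ^ 4 * ∑ k ∈ Finset.Icc 1 (X ^ (a - 16)), |r2 f₁ k| * (k : ℝ) ^ (-β) ≤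
        C / (X : ℝ) ^ 4 * ((Real.exp a * (1 + a)) ^ 2 * X ^ 2) :=
          mul_le_mul_of_nonneg_left (hS2.trans this) (by positivity)
      _ = C * (Real.exp a * (1 + a)) ^ 2 / X ^ 2 := by field_simp
      _ ≤ _ := div_le_div_of_nonneg_left (by positivity) hX0 (hp 2 (by norm_num))
  have hxb : ((X : ℝ) ^ a) ^ (1 - β) ≤ Real.exp a := by
    have hL : 0 < Real.log X := by linarith
    rw [← Real.rpow_natCast, ← Real.rpow_mul hX0.le, Real.rpow_def_of_pos hX0, Real.exp_le_exp]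
    have h3 : (1 - β) * Real.log X ≤ 1 := by
      have : 1 - β ≤ 1 / Real.log X := by linarith
      calc (1 - β) * Real.log X ≤ 1 / Real.log X * Real.log X :=
            mul_le_mul_of_nonneg_right this hL.le
        _ = 1 := by field_simp
    have h4 : (0 : ℝ) ≤ a := Nat.cast_nonneg a
    nlinarith
  have hMabs : |M| ≤ 16 * X * (Real.exp 16 * (1 + 16 * X)) := by
    rw [hM, abs_div, abs_of_pos (by linarith : 0 < 1 - β), div_le_iff₀ (by linarith)]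
    linarith
  have e3 : |M * ((X : ℝ) ^ a) ^ (1 - β) * (la (cv f₂ f₃) (X ^ 16) -
      la f₂ (X ^ 16) * la f₃ (X ^ 16))| ≤ C * (272 * Real.exp 16 * Real.exp a) / X := by
    have h4 : |M| ≤ 272 * Real.exp 16 * X ^ 2 := by
      refine hMabs.trans ?_
      have h5 : 0 < Real.exp 16 := Real.exp_pos _
      have h6 : (1 + 16 * (X : ℝ)) ≤ 17 * X := by linarith
      calc 16 * (X : ℝ) * (Real.exp 16 * (1 + 16 * X)) ≤ 16 * (X : ℝ) * (Real.exp 16 * (17 * X)) := by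
            apply mul_le_mul_of_nonneg_left _ (by positivity)
            exact mul_le_mul_of_nonneg_left h6 h5.le
        _ = 272 * Real.exp 16 * X ^ 2 := by ring
    have hW0 : 0 ≤ ((X : ℝ) ^ a) ^ (1 - β) := by positivity
    exact err_three hX1 hC h4 hW0 hxb hLa
  have hsum : 289 * Real.exp 16 ^ 2 / X + C * (Real.exp a * (1 + a)) ^ 2 / X +
      C * (272 * Real.exp 16 * Real.exp a) / X ≤ 1 / 2 := by
    have : 289 * Real.exp 16 ^ 2 / X + C * (Real.exp a * (1 + a)) ^ 2 / X +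
      C * (272 * Real.exp 16 * Real.exp a) / X = K / X := by rw [hK]; ring
    rw [this, div_le_iff₀ hX0]
    have : (X₂ : ℝ) ≤ X := by exact_mod_cast hXX₂
    linarith
  have hmain := (abs_le.mp hcv).2
  have he3 := (abs_le.mp e3).2
  have hr4 : ∑ n ∈ Finset.Icc 1 (X ^ a), r4 f₁ f₂ n * (n : ℝ) ^ (-β) =
      ∑ n ∈ Finset.Icc 1 (X ^ a), cv (cv f₂ f₃) (r2 f₁) n * (n : ℝ) ^ (-β) := rfl
  rw [hr4]
  have hfin : la f₁ (X ^ 16) * la f₂ (X ^ 16) * la f₃ (X ^ 16) / (1 - β) *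
        ((X : ℝ) ^ a) ^ (1 - β) = M * ((X : ℝ) ^ a) ^ (1 - β) * (la f₂ (X ^ 16) * la f₃ (X ^ 16)) := by
    rw [hM]; ring
  rw [hfin]
  linarith

end Pool.Agent.N26.RP
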